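import Mathlib

set_option autoImplicit false

/-!
Uniform hypergraphs, homomorphism densities and Sidorenko exponents.
-/

namespace Pool.Agent.Q231.Sid

open Finset
open scoped ENNReal NNReal

/-- An `r`-graph on the vertex set `V`: a set of `r`-element subsets of `V`. -/
structure RGraph (r : ℕ) (V : Type) where
  /-- the edges -/
  edges : Finset (Finset V)
  /-- all edges have `r` elements -/
  uniform : ∀ e ∈ edges, e.card = r

namespace RGraph

variable {r : ℕ} {W V : Type}

/-- A homomorphism maps every edge onto an edge. -/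
def IsHom [DecidableEq V] (F : RGraph r W) (H : RGraph r V) (φ : W → V) : Prop :=
  ∀ e ∈ F.edges, e.image φ ∈ H.edges

/-- The homomorphism density `t_F(H) = hom(F,H) / v(H)^{v(F)}`. -/
noncomputable def density [Fintype W] [Fintype V] [DecidableEq V]
    (F : RGraph r W) (H : RGraph r V) : ℝ :=
  (Nat.card {φ : W → V // F.IsHom H φ} : ℝ) / (Fintype.card V : ℝ) ^ Fintype.card W

/-- The `r`-graph with `r` vertices and one edge. -/
def single (r : ℕ) : RGraph r (Fin r) where
  edges := {Finset.univ}
  uniform := by simp

/-- `r`-partite: the vertices can be split into `r` parts so that every edge meets each part in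
exactly one vertex. -/
def IsPartite (F : RGraph r W) : Prop :=
  ∃ c : W → Fin r, ∀ e ∈ F.edges, ∀ j : Fin r, ∃! v, v ∈ e ∧ c v = j

/-- The number of edges containing `v`. -/
def degree [DecidableEq W] (F : RGraph r W) (v : W) : ℕ := (F.edges.filter fun e => v ∈ e).card

/-- The Sidorenko exponent
`s(F) = sup {s ≥ 0 : there is an r-graph H with t_F(H) = t_{K_r}(H)^s > 0}`,
a supremum in the extended nonnegative reals. -/
noncomputable def sidorenkoExponent [Fintype W] (F : RGraph r W) : ℝ≥0∞ :=
  sSup {s : ℝ≥0∞ | ∃ (a : ℝ≥0) (n : ℕ) (H : RGraph r (Fin n)), s = a ∧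
    F.density H = ((single r).density H) ^ (a : ℝ) ∧ 0 < F.density H}

end RGraph

end Pool.Agent.Q231.Sid
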