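import Mathlib

set_option autoImplicit false
set_option linter.unusedSectionVars false

/-!
Relative entropies of densities on a finite power `I → V`, with respect to the uniform measure.
-/

namespace Pool.Agent.Q231.Sid

open Finset

variable {I V : Type} [Fintype I] [DecidableEq I] [Fintype V]

/-- Average over all functions `I → V`. -/
noncomputable def Ex (g : (I → V) → ℝ) : ℝ := (Fintype.card (I → V) : ℝ)⁻¹ * ∑ x, g x

/-- Marginal density on the coordinates in `S`. -/
noncomputable def marg (f : (I → V) → ℝ) (S : Finset I) (x : I → V) : ℝ :=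
  Ex fun y => f (S.piecewise x y)

/-- Relative entropy of the marginal on `S`. -/
noncomputable def D (f : (I → V) → ℝ) (S : Finset I) : ℝ :=
  Ex fun x => f x * Real.log (marg f S x)

/-- `g` depends only on the coordinates in `S`. -/
def DependsOn' (g : (I → V) → ℝ) (S : Finset I) : Prop :=
  ∀ x x' : I → V, (∀ i ∈ S, x i = x' i) → g x = g x'

theorem Ex_congr {g h : (I → V) → ℝ} (e : ∀ x, g x = h x) : Ex g = Ex h := by
  have : g = h := funext e
  rw [this]

theorem Ex_add (g h : (I → V) → ℝ) : Ex (fun x => g x + h x) = Ex g + Ex h := by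
  simp only [Ex, sum_add_distrib, mul_add]

theorem Ex_sub (g h : (I → V) → ℝ) : Ex (fun x => g x - h x) = Ex g - Ex h := by
  simp only [Ex, sum_sub_distrib, mul_sub]

theorem Ex_mul_left (c : ℝ) (g : (I → V) → ℝ) : Ex (fun x => c * g x) = c * Ex g := by
  simp only [Ex, ← mul_sum]; ring

theorem Ex_mul_right (c : ℝ) (g : (I → V) → ℝ) : Ex (fun x => g x * c) = Ex g * c := by
  simp only [Ex, ← sum_mul]; ring

theorem Ex_mono {g h : (I → V) → ℝ} (e : ∀ x, g x ≤ h x) : Ex g ≤ Ex h := by
  unfold Ex
  exact mul_le_mul_of_nonneg_left (sum_le_sum fun x _ => e x) (by positivity)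

theorem Ex_nonneg {g : (I → V) → ℝ} (e : ∀ x, 0 ≤ g x) : 0 ≤ Ex g := by
  unfold Ex
  exact mul_nonneg (by positivity) (sum_nonneg fun x _ => e x)

theorem Ex_comm (g : (I → V) → (I → V) → ℝ) :
    Ex (fun x => Ex fun y => g x y) = Ex (fun y => Ex fun x => g x y) := by
  simp only [Ex, ← mul_sum]
  rw [sum_comm]

theorem Ex_equiv (e : (I → V) ≃ (I → V)) (g : (I → V) → ℝ) : Ex (fun x => g (e x)) = Ex g := by
  unfold Ex
  rw [Equiv.sum_comp e g]

section
variable [Nonempty V]

theorem Ex_const (c : ℝ) : Ex (fun _ : I → V => c) = c := by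
  unfold Ex
  rw [sum_const, card_univ, nsmul_eq_mul, ← mul_assoc, inv_mul_cancel₀, one_mul]
  exact Nat.cast_ne_zero.2 Fintype.card_ne_zero

theorem Ex_piecewise (S : Finset I) (g : (I → V) → ℝ) :
    Ex (fun x => Ex fun y => g (S.piecewise x y)) = Ex g := by
  have key : ∑ x : I → V, ∑ y : I → V, g (S.piecewise x y) = ∑ x : I → V, ∑ y : I → V, g x := by
    rw [← sum_product', ← sum_product']
    refine sum_nbij' (fun p => (S.piecewise p.1 p.2, S.piecewise p.2 p.1))
      (fun p => (S.piecewise p.1 p.2, S.piecewise p.2 p.1)) ?_ ?_ ?_ ?_ ?_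
    · intro p _; simp
    · intro p _; simp
    · rintro ⟨p, q⟩ _
      ext i <;> by_cases h : i ∈ S <;> simp [h]
    · rintro ⟨p, q⟩ _
      ext i <;> by_cases h : i ∈ S <;> simp [h]
    · intro p _; rfl
  have h1 : Ex (fun x : I → V => Ex fun y : I → V => g (S.piecewise x y)) =
      Ex (fun x : I → V => Ex fun _ : I → V => g x) := by
    unfold Ex
    simp only [← mul_sum]
    rw [key]
  rw [h1]
  exact Ex_congr fun x => Ex_const _

theorem Ex_eq_zero {g : (I → V) → ℝ} (e : ∀ x, 0 ≤ g x) (h : Ex g = 0) (x : I → V) : g x = 0 := by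
  unfold Ex at h
  rcases mul_eq_zero.1 h with h | h
  · exact absurd h (inv_ne_zero (Nat.cast_ne_zero.2 Fintype.card_ne_zero))
  · exact (sum_eq_zero_iff_of_nonneg fun x _ => e x).1 h x (mem_univ x)

theorem marg_nonneg {f : (I → V) → ℝ} (hf : ∀ x, 0 ≤ f x) (S : Finset I) (x : I → V) :
    0 ≤ marg f S x := Ex_nonneg fun _ => hf _

theorem marg_dep (f : (I → V) → ℝ) (S : Finset I) : DependsOn' (marg f S) S := by
  intro x x' h
  unfold marg
  refine Ex_congr fun y => ?_
  congr 1
  ext i
  by_cases hi : i ∈ S <;> simp [hi, h]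

theorem DependsOn'.mono {g : (I → V) → ℝ} {S T : Finset I} (h : DependsOn' g S) (hST : S ⊆ T) :
    DependsOn' g T := fun x x' e => h x x' fun i hi => e i (hST hi)

theorem marg_marg (f : (I → V) → ℝ) (S T : Finset I) (x : I → V) :
    marg (marg f T) S x = marg f (S ∩ T) x := by
  unfold marg
  rw [← Ex_piecewise T (fun y => f ((S ∩ T).piecewise x y))]
  refine Ex_congr fun y => Ex_congr fun z => ?_
  congr 1
  ext i
  by_cases hi : i ∈ S <;> by_cases hj : i ∈ T <;> simp [hi, hj]

theorem marg_pull (f g : (I → V) → ℝ) (S : Finset I) (hg : DependsOn' g S) (x : I → V) :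
    marg (fun x => f x * g x) S x = marg f S x * g x := by
  unfold marg
  rw [← Ex_mul_right]
  refine Ex_congr fun y => ?_
  have e : g (S.piecewise x y) = g x := hg _ _ fun i hi => by simp [hi]
  show f (S.piecewise x y) * g (S.piecewise x y) = f (S.piecewise x y) * g x
  rw [e]

theorem Ex_marg (f : (I → V) → ℝ) (S : Finset I) : Ex (marg f S) = Ex f := Ex_piecewise S f

theorem Ex_pull (f g : (I → V) → ℝ) (S : Finset I) (hg : DependsOn' g S) :
    Ex (fun x => f x * g x) = Ex (fun x => marg f S x * g x) := by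
  rw [← Ex_marg (fun x => f x * g x) S]
  exact Ex_congr fun x => marg_pull f g S hg x

theorem marg_zero {f : (I → V) → ℝ} (hf : ∀ x, 0 ≤ f x) {S T : Finset I} (hST : S ⊆ T)
    {x : I → V} (h : marg f S x = 0) : marg f T x = 0 := by
  have h1 : marg (marg f T) S x = 0 := by rw [marg_marg, inter_eq_left.2 hST, h]
  have h2 := Ex_eq_zero (fun y => marg_nonneg hf T (S.piecewise x y)) h1 x
  rwa [piecewise_same] at h2

theorem marg_univ (f : (I → V) → ℝ) (x : I → V) : marg f univ x = f x := by
  unfold marg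
  rw [← Ex_const (I := I) (V := V) (f x)]
  refine Ex_congr fun y => ?_
  congr 1
  ext i; simp

theorem marg_empty (f : (I → V) → ℝ) (x : I → V) : marg f ∅ x = Ex f := by
  unfold marg
  refine Ex_congr fun y => ?_
  congr 1

theorem marg_zero' {f : (I → V) → ℝ} (hf : ∀ x, 0 ≤ f x) {S : Finset I}
    {x : I → V} (h : marg f S x = 0) : f x = 0 := by
  have := marg_zero hf (subset_univ S) h
  rwa [marg_univ] at this

/-- A positive marginal comes from a point of the support. -/
theorem exists_of_marg_ne {f : (I → V) → ℝ} {S : Finset I} {x : I → V} (h : marg f S x ≠ 0) :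
    ∃ z, f z ≠ 0 ∧ ∀ i ∈ S, z i = x i := by
  by_contra hc
  push Not at hc
  apply h
  unfold marg
  rw [← Ex_const (I := I) (V := V) 0]
  refine Ex_congr fun y => ?_
  by_contra hne
  obtain ⟨i, hi, hne'⟩ := hc _ hne
  exact hne' (by simp [hi])

theorem D_eq (f : (I → V) → ℝ) (S : Finset I) :
    D f S = Ex fun x => marg f S x * Real.log (marg f S x) := by
  unfold D
  refine Ex_pull f _ S ?_
  intro x x' h
  show Real.log (marg f S x) = Real.log (marg f S x')
  rw [marg_dep f S x x' h]

theorem log_ineq {a b : ℝ} (ha : 0 ≤ a) (hb : 0 ≤ b) (h : a = 0 → b = 0) :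
    b - a ≤ b * Real.log b - b * Real.log a := by
  rcases eq_or_lt_of_le hb with hb0 | hb0
  · rw [← hb0]; simp [ha]
  · have ha0 : 0 < a := lt_of_le_of_ne ha (fun e => hb0.ne' (h e.symm))
    have h1 : Real.log (a / b) ≤ a / b - 1 := Real.log_le_sub_one_of_pos (by positivity)
    rw [Real.log_div ha0.ne' hb0.ne'] at h1
    have h2 : b * (Real.log a - Real.log b) ≤ b * (a / b - 1) :=
      mul_le_mul_of_nonneg_left h1 hb
    have h3 : b * (a / b - 1) = a - b := by field_simp
    rw [h3] at h2
    linarith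

theorem D_mono {f : (I → V) → ℝ} (hf : ∀ x, 0 ≤ f x) {S T : Finset I} (hST : S ⊆ T) :
    D f S ≤ D f T := by
  have h1 : D f T = Ex fun x => marg f T x * Real.log (marg f T x) := D_eq f T
  have h2 : D f S = Ex fun x => marg f T x * Real.log (marg f S x) := by
    unfold D
    refine Ex_pull f _ T ?_
    intro x x' h
    show Real.log (marg f S x) = Real.log (marg f S x')
    rw [marg_dep f S x x' (fun i hi => h i (hST hi))]
  have h3 : Ex (fun x => marg f T x - marg f S x) ≤
      Ex (fun x => marg f T x * Real.log (marg f T x) - marg f T x * Real.log (marg f S x)) :=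
    Ex_mono fun x => log_ineq (marg_nonneg hf S x) (marg_nonneg hf T x) (fun h => marg_zero hf hST h)
  rw [Ex_sub, Ex_sub, Ex_marg, Ex_marg, ← h1, ← h2] at h3
  linarith

theorem D_empty {f : (I → V) → ℝ} (h1 : Ex f = 1) : D f ∅ = 0 := by
  unfold D
  rw [← Ex_const (I := I) (V := V) 0]
  refine Ex_congr fun x => ?_
  rw [marg_empty, h1, Real.log_one, mul_zero]

theorem D_nonneg {f : (I → V) → ℝ} (hf : ∀ x, 0 ≤ f x) (h1 : Ex f = 1) (S : Finset I) :
    0 ≤ D f S := by
  rw [← D_empty h1]
  exact D_mono hf (empty_subset S)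

/-- Gibbs inequality. -/
theorem D_ge {f : (I → V) → ℝ} (hf : ∀ x, 0 ≤ f x) (h1 : Ex f = 1) (S : Finset I)
    (P : (I → V) → Prop) [DecidablePred P] (hP : ∀ x, marg f S x ≠ 0 → P x) :
    0 < Ex (fun x => if P x then (1 : ℝ) else 0) ∧
      - Real.log (Ex (fun x => if P x then (1 : ℝ) else 0)) ≤ D f S := by
  set t := Ex (fun x => if P x then (1 : ℝ) else 0) with ht
  have ht0 : 0 ≤ t := Ex_nonneg fun x => by split_ifs <;> norm_num
  have htpos : 0 < t := by
    rcases eq_or_lt_of_le ht0 with h | h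
    · exfalso
      have h2 : ∀ x, marg f S x = 0 := by
        intro x
        by_contra hne
        have h3 := Ex_eq_zero (g := fun x => if P x then (1 : ℝ) else 0)
          (fun x => by split_ifs <;> norm_num) h.symm x
        simp [hP x hne] at h3
      have h4 : Ex (marg f S) = 0 := by
        rw [← Ex_const (I := I) (V := V) 0]
        exact Ex_congr h2
      rw [Ex_marg, h1] at h4
      norm_num at h4
    · exact h
  refine ⟨htpos, ?_⟩
  rw [D_eq]
  have h3 : Ex (fun x => marg f S x - (if P x then (1 : ℝ) else 0) * t⁻¹) ≤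
      Ex (fun x => marg f S x * Real.log (marg f S x) - marg f S x * Real.log t⁻¹) := by
    refine Ex_mono fun x => ?_
    by_cases hx : P x
    · simp only [hx, if_true, one_mul]
      exact log_ineq (by positivity) (marg_nonneg hf S x) (fun h => by
        exfalso; exact (inv_ne_zero htpos.ne') h)
    · have : marg f S x = 0 := by by_contra hne; exact hx (hP x hne)
      simp [hx, this]
  rw [Ex_sub, Ex_sub, Ex_marg, h1, Ex_mul_right, Ex_mul_right, Ex_marg, h1, ← ht,
    mul_inv_cancel₀ htpos.ne', Real.log_inv] at h3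
  linarith

end

end Pool.Agent.Q231.Sid
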