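import Pool.Agent.Q231.Sid.Ent

set_option autoImplicit false
set_option linter.unusedSectionVars false

/-!
Adding one conditionally independent coordinate.
-/

namespace Pool.Agent.Q231.Sid

open Finset

variable {I V : Type} [Fintype I] [DecidableEq I] [Fintype V] [Nonempty V]

/-- Conditional density of coordinate `y` given `N`, read off at the coordinate `w`. -/
noncomputable def kap (f : (I → V) → ℝ) (y w : I) (N : Finset I) (x : I → V) : ℝ :=
  marg f (insert y N) (Function.update x y (x w)) / marg f N x

/-- Resample coordinate `w` from the conditional law of coordinate `y` given `N`. -/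
noncomputable def resamp (f : (I → V) → ℝ) (y w : I) (N : Finset I) (x : I → V) : ℝ :=
  marg f {w}ᶜ x * kap f y w N x

theorem kap_dep (f : (I → V) → ℝ) (y w : I) (N : Finset I) :
    DependsOn' (kap f y w N) (insert w N) := by
  intro x x' h
  unfold kap
  rw [marg_dep f N x x' (fun i hi => h i (mem_insert_of_mem hi))]
  rw [marg_dep f (insert y N) (Function.update x y (x w)) (Function.update x' y (x' w))]
  intro i hi
  by_cases e : i = y
  · subst e; simp [h w (mem_insert_self _ _)]
  · rw [Function.update_of_ne e, Function.update_of_ne e]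
    exact h i (mem_insert_of_mem ((mem_insert.1 hi).resolve_left e))

theorem kap_nonneg {f : (I → V) → ℝ} (hf : ∀ x, 0 ≤ f x) (y w : I) (N : Finset I) (x : I → V) :
    0 ≤ kap f y w N x := div_nonneg (marg_nonneg hf _ _) (marg_nonneg hf _ _)

theorem resamp_nonneg {f : (I → V) → ℝ} (hf : ∀ x, 0 ≤ f x) (y w : I) (N : Finset I)
    (x : I → V) : 0 ≤ resamp f y w N x :=
  mul_nonneg (marg_nonneg hf _ _) (kap_nonneg hf _ _ _ _)

/-- Permuting coordinates preserves averages. -/
theorem Ex_perm (s : Equiv.Perm I) (g : (I → V) → ℝ) : Ex (fun x => g (x ∘ s)) = Ex g :=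
  Ex_equiv (Equiv.arrowCongr s.symm (Equiv.refl V)) g

theorem marg_kap {f : (I → V) → ℝ} (hf : ∀ x, 0 ≤ f x) {y w : I} {N : Finset I}
    (hyw : y ≠ w) (hy : y ∉ N) (hw : w ∉ N) (x : I → V) (hx : marg f N x ≠ 0) :
    marg (kap f y w N) {w}ᶜ x = 1 := by
  have h1 : marg (kap f y w N) {w}ᶜ x =
      Ex (fun z => marg f (insert y N) (Function.update x y (z w)) * (marg f N x)⁻¹) := by
    unfold marg
    refine Ex_congr fun z => ?_
    show kap f y w N (({w}ᶜ : Finset I).piecewise x z) = _
    have e : (({w}ᶜ : Finset I).piecewise x z) = Function.update x w (z w) := by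
      ext i
      by_cases h : i = w
      · subst h; simp
      · simp [h]
    rw [e]
    unfold kap
    rw [div_eq_mul_inv]
    congr 1
    · simp only [Function.update_self]
      refine marg_dep f (insert y N) _ _ ?_
      intro i hi
      by_cases h : i = y
      · subst h; simp
      · rw [Function.update_of_ne h, Function.update_of_ne h]
        have : i ≠ w := by
          rintro rfl
          exact hw ((mem_insert.1 hi).resolve_left h)
        rw [Function.update_of_ne this]
    · congr 1
      refine marg_dep f N _ _ ?_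
      intro i hi
      have : i ≠ w := by rintro rfl; exact hw hi
      rw [Function.update_of_ne this]
  rw [h1, Ex_mul_right]
  have h2 : Ex (fun z : I → V => marg f (insert y N) (Function.update x y (z w))) =
      Ex (fun z : I → V => marg f (insert y N) (Function.update x y (z y))) := by
    have := Ex_perm (V := V) (Equiv.swap y w)
      (fun z : I → V => marg f (insert y N) (Function.update x y (z w)))
    rw [← this]
    refine Ex_congr fun z => ?_
    simp
  have h3 : Ex (fun z : I → V => marg f (insert y N) (Function.update x y (z y))) =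
      marg (marg f (insert y N)) {y}ᶜ x := by
    unfold marg
    refine Ex_congr fun z => ?_
    have e : (({y}ᶜ : Finset I).piecewise x z) = Function.update x y (z y) := by
      ext i
      by_cases h : i = y
      · subst h; simp
      · simp [h]
    rw [e]
  have h4 : ({y}ᶜ : Finset I) ∩ insert y N = N := by
    ext i
    simp only [mem_inter, mem_compl, mem_singleton, mem_insert]
    constructor
    · rintro ⟨h, h' | h'⟩
      · exact absurd h' h
      · exact h'
    · intro h
      exact ⟨fun e => hy (e ▸ h), Or.inr h⟩
  rw [h2, h3, marg_marg, h4, mul_inv_cancel₀ hx]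

theorem marg_resamp_compl {f : (I → V) → ℝ} (hf : ∀ x, 0 ≤ f x) {y w : I} {N : Finset I}
    (hyw : y ≠ w) (hy : y ∉ N) (hw : w ∉ N) (x : I → V) :
    marg (resamp f y w N) {w}ᶜ x = marg f {w}ᶜ x := by
  have hN : N ⊆ ({w}ᶜ : Finset I) := fun i hi => by
    simp only [mem_compl, mem_singleton]; rintro rfl; exact hw hi
  have h1 : marg (resamp f y w N) {w}ᶜ x = marg (kap f y w N) {w}ᶜ x * marg f {w}ᶜ x := by
    rw [← marg_pull (kap f y w N) (marg f {w}ᶜ) _ (marg_dep f _)]
    unfold marg
    exact Ex_congr fun z => mul_comm _ _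
  rw [h1]
  by_cases hx : marg f N x = 0
  · rw [marg_zero hf hN hx, mul_zero]
  · rw [marg_kap hf hyw hy hw x hx, one_mul]

theorem marg_resamp {f : (I → V) → ℝ} (hf : ∀ x, 0 ≤ f x) {y w : I} {N : Finset I}
    (hyw : y ≠ w) (hy : y ∉ N) (hw : w ∉ N) {S : Finset I} (hS : w ∉ S) (x : I → V) :
    marg (resamp f y w N) S x = marg f S x := by
  have hS' : S ∩ ({w}ᶜ : Finset I) = S := by
    rw [inter_eq_left]
    intro i hi
    simp only [mem_compl, mem_singleton]; rintro rfl; exact hS hi
  have h1 : marg (marg (resamp f y w N) {w}ᶜ) S x = marg (marg f {w}ᶜ) S x := by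
    have : marg (resamp f y w N) {w}ᶜ = marg f {w}ᶜ :=
      funext fun x => marg_resamp_compl hf hyw hy hw x
    rw [this]
  rwa [marg_marg, marg_marg, hS'] at h1

theorem Ex_resamp {f : (I → V) → ℝ} (hf : ∀ x, 0 ≤ f x) {y w : I} {N : Finset I}
    (hyw : y ≠ w) (hy : y ∉ N) (hw : w ∉ N) : Ex (resamp f y w N) = Ex f := by
  rw [← Ex_marg (resamp f y w N) {w}ᶜ, ← Ex_marg f {w}ᶜ]
  exact Ex_congr fun x => marg_resamp_compl hf hyw hy hw x

theorem marg_resamp_insert {f : (I → V) → ℝ} (hf : ∀ x, 0 ≤ f x) {y w : I} {N : Finset I}
    (hyw : y ≠ w) (hy : y ∉ N) (hw : w ∉ N) {S : Finset I} (hS : w ∉ S) (hNS : N ⊆ S)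
    (x : I → V) :
    marg (resamp f y w N) (insert w S) x = marg f S x * kap f y w N x := by
  have h1 : marg (resamp f y w N) (insert w S) x =
      marg (marg f {w}ᶜ) (insert w S) x * kap f y w N x :=
    marg_pull (marg f {w}ᶜ) (kap f y w N) _
      ((kap_dep f y w N).mono (insert_subset_insert w hNS)) x
  have h2 : insert w S ∩ ({w}ᶜ : Finset I) = S := by
    ext i
    simp only [mem_inter, mem_compl, mem_singleton, mem_insert]
    constructor
    · rintro ⟨h | h, h'⟩
      · exact absurd h h'
      · exact h
    · intro h
      exact ⟨Or.inr h, fun e => hS (e ▸ h)⟩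
  rw [h1, marg_marg, h2]

theorem D_resamp {f : (I → V) → ℝ} (hf : ∀ x, 0 ≤ f x) {y w : I} {N : Finset I}
    (hyw : y ≠ w) (hy : y ∉ N) (hw : w ∉ N) {S : Finset I} (hS : w ∉ S) :
    D (resamp f y w N) S = D f S := by
  rw [D_eq, D_eq]
  refine Ex_congr fun x => ?_
  rw [marg_resamp hf hyw hy hw hS]

theorem D_resamp_insert {f : (I → V) → ℝ} (hf : ∀ x, 0 ≤ f x) {y w : I} {N : Finset I}
    (hyw : y ≠ w) (hy : y ∉ N) (hw : w ∉ N) {S : Finset I} (hS : w ∉ S) (hNS : N ⊆ S) :
    D (resamp f y w N) (insert w S) = D f S + D f (insert y N) - D f N := by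
  have hSw : S ⊆ ({w}ᶜ : Finset I) := fun i hi => by
    simp only [mem_compl, mem_singleton]; rintro rfl; exact hS hi
  have h0 : D (resamp f y w N) (insert w S) =
      Ex (fun x => resamp f y w N x * Real.log (marg f S x)) +
        Ex (fun x => resamp f y w N x * Real.log (kap f y w N x)) := by
    rw [← Ex_add]
    unfold D
    refine Ex_congr fun x => ?_
    rw [marg_resamp_insert hf hyw hy hw hS hNS]
    by_cases hx : resamp f y w N x = 0
    · simp [hx]
    · have h1 : kap f y w N x ≠ 0 := fun e => hx (by unfold resamp; rw [e, mul_zero])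
      have h2 : marg f S x ≠ 0 := fun e => hx (by
        unfold resamp; rw [marg_zero hf hSw e, zero_mul])
      rw [Real.log_mul h2 h1]; ring
  have h1 : Ex (fun x => resamp f y w N x * Real.log (marg f S x)) = D f S := by
    rw [Ex_pull (resamp f y w N) (fun x => Real.log (marg f S x)) S
      (fun x x' h => by
        show Real.log (marg f S x) = Real.log (marg f S x')
        rw [marg_dep f S x x' h]), D_eq]
    refine Ex_congr fun x => ?_
    rw [marg_resamp hf hyw hy hw hS]
  have h2 : Ex (fun x => resamp f y w N x * Real.log (kap f y w N x)) =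
      Ex (fun x => (marg f N x * kap f y w N x) * Real.log (kap f y w N x)) := by
    rw [Ex_pull (resamp f y w N) (fun x => Real.log (kap f y w N x)) (insert w N)
      (fun x x' h => by
        show Real.log (kap f y w N x) = Real.log (kap f y w N x')
        rw [kap_dep f y w N x x' h])]
    refine Ex_congr fun x => ?_
    rw [marg_resamp_insert hf hyw hy hw hw (Subset.refl N)]
  have h3 : ∀ x, (marg f N x * kap f y w N x) * Real.log (kap f y w N x) =
      marg f (insert y N) (x ∘ Equiv.swap y w) * Real.log (marg f (insert y N) (x ∘ Equiv.swap y w))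
      - marg f (insert y N) (x ∘ Equiv.swap y w) * Real.log (marg f N (x ∘ Equiv.swap y w)) := by
    intro x
    have e1 : marg f (insert y N) (Function.update x y (x w)) =
        marg f (insert y N) (x ∘ Equiv.swap y w) := by
      refine marg_dep f (insert y N) _ _ ?_
      intro i hi
      by_cases h : i = y
      · subst h; simp
      · rw [Function.update_of_ne h]
        have hiN := (mem_insert.1 hi).resolve_left h
        have : i ≠ w := by rintro rfl; exact hw hiN
        simp [Equiv.swap_apply_of_ne_of_ne h this]
    have e2 : marg f N x = marg f N (x ∘ Equiv.swap y w) := by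
      refine marg_dep f N _ _ ?_
      intro i hiN
      have h : i ≠ y := by rintro rfl; exact hy hiN
      have : i ≠ w := by rintro rfl; exact hw hiN
      simp [Equiv.swap_apply_of_ne_of_ne h this]
    rw [← e1, ← e2]
    unfold kap
    by_cases hx : marg f N x = 0
    · have hz : marg f (insert y N) (Function.update x y (x w)) = 0 := by
        refine marg_zero hf (subset_insert y N) ?_
        rw [← hx]
        refine marg_dep f N _ _ ?_
        intro i hiN
        have h : i ≠ y := by rintro rfl; exact hy hiN
        rw [Function.update_of_ne h]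
      simp [hx, hz]
    · rw [mul_div_cancel₀ _ hx]
      by_cases hz : marg f (insert y N) (Function.update x y (x w)) = 0
      · simp [hz]
      · rw [Real.log_div hz hx]; ring
  have h4 : Ex (fun x => (marg f N x * kap f y w N x) * Real.log (kap f y w N x)) =
      D f (insert y N) - D f N := by
    rw [Ex_congr h3]
    rw [Ex_perm (Equiv.swap y w) (fun x => marg f (insert y N) x *
      Real.log (marg f (insert y N) x) - marg f (insert y N) x * Real.log (marg f N x))]
    rw [Ex_sub, ← D_eq]
    congr 1
    rw [Ex_pull (marg f (insert y N)) (fun x => Real.log (marg f N x)) N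
      (fun x x' h => by
        show Real.log (marg f N x) = Real.log (marg f N x')
        rw [marg_dep f N x x' h]), D_eq]
    refine Ex_congr fun x => ?_
    rw [marg_marg, inter_eq_left.2 (subset_insert y N)]
  rw [h0, h1, h2, h4]; ring

/-- Support of the resampled density. -/
theorem resamp_support {f : (I → V) → ℝ} {y w : I} {N : Finset I} (x : I → V)
    (hx : resamp f y w N x ≠ 0) :
    (∃ v, f (Function.update x w v) ≠ 0) ∧
      ∃ z, f z ≠ 0 ∧ ∀ i ∈ insert y N, z i = Function.update x y (x w) i := by
  have h1 : marg f {w}ᶜ x ≠ 0 := fun e => hx (by unfold resamp; rw [e, zero_mul])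
  have h2 : kap f y w N x ≠ 0 := fun e => hx (by unfold resamp; rw [e, mul_zero])
  constructor
  · obtain ⟨z, hz, hz'⟩ := exists_of_marg_ne h1
    refine ⟨z w, ?_⟩
    have : z = Function.update x w (z w) := by
      ext i
      by_cases h : i = w
      · subst h; simp
      · rw [Function.update_of_ne h]; exact hz' i (by simp [h])
    rwa [← this]
  · refine exists_of_marg_ne (f := f) (S := insert y N) fun e => h2 ?_
    unfold kap
    rw [e, zero_div]

end Pool.Agent.Q231.Sid
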