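import Pool.Agent.Q231.Sid.Defs
import Pool.Agent.Q231.Sid.Step

set_option autoImplicit false
set_option linter.unusedSectionVars false

/-!
The ungluing induction.
-/

namespace Pool.Agent.Q231.Sid

open Finset

section avg
variable {J R V : Type} [Fintype J] [DecidableEq J] [Fintype R] [DecidableEq R]
  [Fintype V] [Nonempty V]

theorem Ex_inl (g : (J → V) → ℝ) : Ex (fun x : J ⊕ R → V => g (x ∘ Sum.inl)) = Ex g := by
  unfold Ex
  rw [← Equiv.sum_comp (Equiv.sumArrowEquivProdArrow J R V).symm,
    Fintype.card_congr (Equiv.sumArrowEquivProdArrow J R V), Fintype.card_prod,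
    Fintype.sum_prod_type]
  have : ∀ (a : J → V) (b : R → V),
      g (((Equiv.sumArrowEquivProdArrow J R V).symm (a, b)) ∘ Sum.inl) = g a := fun a b => rfl
  simp only [this, sum_const, card_univ, nsmul_eq_mul, ← mul_sum]
  have h0 : (Fintype.card (R → V) : ℝ) ≠ 0 := Nat.cast_ne_zero.2 Fintype.card_ne_zero
  push_cast
  field_simp

theorem Ex_inr (g : (R → V) → ℝ) : Ex (fun x : J ⊕ R → V => g (x ∘ Sum.inr)) = Ex g := by
  unfold Ex
  rw [← Equiv.sum_comp (Equiv.sumArrowEquivProdArrow J R V).symm,
    Fintype.card_congr (Equiv.sumArrowEquivProdArrow J R V), Fintype.card_prod,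
    Fintype.sum_prod_type]
  have : ∀ (a : J → V) (b : R → V),
      g (((Equiv.sumArrowEquivProdArrow J R V).symm (a, b)) ∘ Sum.inr) = g b := fun a b => rfl
  simp only [this, sum_const, card_univ, nsmul_eq_mul]
  have h0 : (Fintype.card (J → V) : ℝ) ≠ 0 := Nat.cast_ne_zero.2 Fintype.card_ne_zero
  push_cast
  field_simp

end avg

variable {r : ℕ} {W V : Type} [Fintype W] [DecidableEq W] [Fintype V] [DecidableEq V] [Nonempty V]

open Classical in
theorem density_eq (F : RGraph r W) (H : RGraph r V) :
    F.density H = Ex (fun φ : W → V => if F.IsHom H φ then (1 : ℝ) else 0) := by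
  unfold RGraph.density Ex
  rw [Nat.card_eq_fintype_card, Fintype.card_subtype, Fintype.card_fun, sum_boole]
  push_cast
  rw [div_eq_inv_mul]

/-- Earlier neighbours. -/
def Nbr (F : RGraph r W) (c : W → Fin r) (w : W) : Finset W :=
  univ.filter fun u => c u < c w ∧ ∃ e ∈ F.edges, u ∈ e ∧ w ∈ e

/-- The coordinates on which the coordinate of `w` is conditioned. -/
def NN (F : RGraph r W) (c : W → Fin r) (w : W) : Finset (W ⊕ Fin r) :=
  (Nbr F c w).image Sum.inl ∪ (univ.filter fun j => c w < j).image Sum.inr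

/-- The glued coordinates. -/
def YY (r : ℕ) (W : Type) [DecidableEq W] : Finset (W ⊕ Fin r) := univ.image Sum.inr

theorem inl_mem_NN (F : RGraph r W) (c : W → Fin r) (u w : W) :
    Sum.inl u ∈ NN F c w ↔ u ∈ Nbr F c w := by
  simp [NN]

theorem inr_mem_NN (F : RGraph r W) (c : W → Fin r) (j : Fin r) (w : W) :
    Sum.inr j ∈ NN F c w ↔ c w < j := by
  simp [NN]

theorem inr_mem_YY (j : Fin r) : (Sum.inr j : W ⊕ Fin r) ∈ YY r W := by simp [YY]

theorem inl_not_mem_YY (w : W) : (Sum.inl w : W ⊕ Fin r) ∉ YY r W := by simp [YY]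

/-- The support condition for the set `A` of unglued vertices. -/
def Supp (F : RGraph r W) (H : RGraph r V) (c : W → Fin r) (A : Finset W)
    (f : (W ⊕ Fin r → V) → ℝ) : Prop :=
  ∀ x, f x ≠ 0 → ∀ e ∈ F.edges, ∀ i : ℕ, i ≤ r → (∀ v ∈ e, (c v : ℕ) < i → v ∈ A) →
    ((e.filter fun v => (c v : ℕ) < i).image fun v => x (Sum.inl v)) ∪
      ((univ.filter fun j : Fin r => i ≤ (j : ℕ)).image fun j => x (Sum.inr j)) ∈ H.edges

/-- Cost of a vertex. -/
noncomputable def cost (F : RGraph r W) (c : W → Fin r) (f : (W ⊕ Fin r → V) → ℝ) (u : W) : ℝ :=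
  D f (insert (Sum.inr (c u)) (NN F c u)) - D f (NN F c u)

/-- The state of the ungluing process. -/
def State (F : RGraph r W) (H : RGraph r V) (c : W → Fin r) (L : ℝ) (A : Finset W)
    (f : (W ⊕ Fin r → V) → ℝ) : Prop :=
  (∀ x, 0 ≤ f x) ∧ Ex f = 1 ∧ Supp F H c A f ∧
    ∀ S : Finset W, S ⊆ A → (∀ u ∈ S, Nbr F c u ⊆ S) →
      D f (YY r W ∪ S.image Sum.inl) ≤ L + ∑ u ∈ S, cost F c f u

theorem marg_self {I : Type} [Fintype I] [DecidableEq I] {f : (I → V) → ℝ} {S : Finset I}
    (h : DependsOn' f S) (x : I → V) : marg f S x = f x := by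
  unfold marg
  rw [← Ex_const (I := I) (V := V) (f x)]
  refine Ex_congr fun y => ?_
  exact h _ _ fun i hi => by simp [hi]

open Classical in
theorem base (F : RGraph r W) (H : RGraph r V) (c : W → Fin r)
    (hc : ∀ e ∈ F.edges, ∀ j : Fin r, ∃! v, v ∈ e ∧ c v = j)
    (ht : 0 < (RGraph.single r).density H) :
    ∃ f, State F H c (- Real.log ((RGraph.single r).density H)) ∅ f := by
  set t := (RGraph.single r).density H with htdef
  have hdens : t = Ex (fun φ : Fin r → V => if (RGraph.single r).IsHom H φ then (1 : ℝ) else 0) :=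
    density_eq _ _
  let f : (W ⊕ Fin r → V) → ℝ := fun x =>
    (if (RGraph.single r).IsHom H (x ∘ Sum.inr) then (1 : ℝ) else 0) * t⁻¹
  have hE : Ex (fun x : W ⊕ Fin r → V =>
      (if (RGraph.single r).IsHom H (x ∘ Sum.inr) then (1 : ℝ) else 0)) = t := by
    rw [hdens]
    exact Ex_inr (J := W) (fun φ : Fin r → V => if (RGraph.single r).IsHom H φ then (1 : ℝ) else 0)
  have hdep : DependsOn' f (YY r W) := by
    intro x x' h
    have : x ∘ Sum.inr = x' ∘ Sum.inr := by
      ext j; exact h _ (inr_mem_YY j)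
    show (if (RGraph.single r).IsHom H (x ∘ Sum.inr) then (1 : ℝ) else 0) * t⁻¹ =
      (if (RGraph.single r).IsHom H (x' ∘ Sum.inr) then (1 : ℝ) else 0) * t⁻¹
    rw [this]
  refine ⟨f, ?_, ?_, ?_, ?_⟩
  · intro x
    show 0 ≤ (if (RGraph.single r).IsHom H (x ∘ Sum.inr) then (1 : ℝ) else 0) * t⁻¹
    split_ifs
    · positivity
    · simp
  · show Ex (fun x : W ⊕ Fin r → V =>
      (if (RGraph.single r).IsHom H (x ∘ Sum.inr) then (1 : ℝ) else 0) * t⁻¹) = 1
    rw [Ex_mul_right, hE, mul_inv_cancel₀ ht.ne']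
  · intro x hx e he i hi hA
    have h1 : (RGraph.single r).IsHom H (x ∘ Sum.inr) := by
      by_contra hc
      apply hx
      show (if (RGraph.single r).IsHom H (x ∘ Sum.inr) then (1 : ℝ) else 0) * t⁻¹ = 0
      simp [hc]
    have hF : ∀ v ∈ e, ¬ (c v : ℕ) < i := fun v hv hlt => by simpa using hA v hv hlt
    have hi0 : (e.filter fun v => (c v : ℕ) < i) = ∅ := by
      rw [filter_eq_empty_iff]; exact hF
    have h2 : univ.image (x ∘ Sum.inr) ∈ H.edges := h1 univ (by simp [RGraph.single])
    have hi1 : i = 0 := by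
      by_contra hne
      obtain ⟨v, ⟨hv, hcv⟩, -⟩ := hc e he ⟨0, by omega⟩
      refine hF v hv ?_
      rw [hcv]
      exact Nat.pos_of_ne_zero hne
    subst hi1
    rw [hi0]
    simpa [Function.comp_def] using h2
  · intro S hS _
    have : S = ∅ := subset_empty.1 hS
    subst this
    simp only [image_empty, union_empty, sum_empty, add_zero]
    unfold D
    have : Ex (fun x => f x * Real.log (marg f (YY r W) x)) =
        Ex (fun x : W ⊕ Fin r → V =>
          (if (RGraph.single r).IsHom H (x ∘ Sum.inr) then (1 : ℝ) else 0) *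
            (t⁻¹ * Real.log t⁻¹)) := by
      refine Ex_congr fun x => ?_
      rw [marg_self hdep]
      show (if (RGraph.single r).IsHom H (x ∘ Sum.inr) then (1 : ℝ) else 0) * t⁻¹ *
        Real.log ((if (RGraph.single r).IsHom H (x ∘ Sum.inr) then (1 : ℝ) else 0) * t⁻¹) = _
      split_ifs
      · simp
      · simp
    rw [this, Ex_mul_right, hE, Real.log_inv, ← mul_assoc, mul_inv_cancel₀ ht.ne', one_mul]

theorem not_mem_Nbr {F : RGraph r W} {c : W → Fin r} {u w : W} (h : c w ≤ c u) :
    u ∉ Nbr F c w := by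
  simp only [Nbr, mem_filter, mem_univ, true_and, not_and]
  intro h'
  exact absurd h' (not_lt.2 h)

theorem step (F : RGraph r W) (H : RGraph r V) (c : W → Fin r) (L : ℝ)
    (hc : ∀ e ∈ F.edges, ∀ j : Fin r, ∃! v, v ∈ e ∧ c v = j)
    (a : W) (A : Finset W) (ha : a ∉ A) (hmax : ∀ x ∈ A, c x ≤ c a)
    (hcl : ∀ u, c u < c a → u ∈ A)
    (f : (W ⊕ Fin r → V) → ℝ) (hf : State F H c L A f) :
    State F H c L (insert a A) (resamp f (Sum.inr (c a)) (Sum.inl a) (NN F c a)) := by
  obtain ⟨h0, h1, hsupp, hD⟩ := hf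
  have hyw : (Sum.inr (c a) : W ⊕ Fin r) ≠ Sum.inl a := by simp
  have hy : (Sum.inr (c a) : W ⊕ Fin r) ∉ NN F c a := by
    rw [inr_mem_NN]; exact lt_irrefl _
  have hw : (Sum.inl a : W ⊕ Fin r) ∉ NN F c a := by
    rw [inl_mem_NN]; exact not_mem_Nbr le_rfl
  refine ⟨resamp_nonneg h0 _ _ _, by rw [Ex_resamp h0 hyw hy hw, h1], ?_, ?_⟩
  · intro x hx e he i hi hA
    obtain ⟨⟨v, hv⟩, z, hz, hz'⟩ := resamp_support x hx
    by_cases hmem : a ∈ e ∧ (c a : ℕ) < i
    · obtain ⟨hae, hai⟩ := hmem
      have hi' : i = (c a : ℕ) + 1 := by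
        by_contra hne
        obtain ⟨v, ⟨hv, hcv⟩, -⟩ := hc e he ⟨(c a : ℕ) + 1, by omega⟩
        have hcv' : (c v : ℕ) = (c a : ℕ) + 1 := by rw [hcv]
        have := hA v hv (by omega)
        rcases mem_insert.1 this with h | h
        · subst h; omega
        · have := hmax v h
          have : (c v : ℕ) ≤ c a := this
          omega
      have hprev := hsupp z hz e he (c a) (by omega) (by
        intro v _ hvc
        exact hcl v hvc)
      have e1 : ((e.filter fun v => (c v : ℕ) < i).image fun v => x (Sum.inl v)) =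
          insert (x (Sum.inl a))
            ((e.filter fun v => (c v : ℕ) < (c a : ℕ)).image fun v => z (Sum.inl v)) := by
        have : e.filter (fun v => (c v : ℕ) < i) =
            insert a (e.filter fun v => (c v : ℕ) < (c a : ℕ)) := by
          ext v
          simp only [mem_filter, mem_insert]
          constructor
          · rintro ⟨h2, h3⟩
            by_cases h4 : (c v : ℕ) < (c a : ℕ)
            · exact Or.inr ⟨h2, h4⟩
            · left
              obtain ⟨v', -, huniq⟩ := hc e he (c a)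
              have h5 : c v = c a := Fin.ext (by omega)
              rw [huniq v ⟨h2, h5⟩, huniq a ⟨hae, rfl⟩]
          · rintro (h2 | ⟨h2, h3⟩)
            · subst h2; exact ⟨hae, by omega⟩
            · exact ⟨h2, by omega⟩
        rw [this, image_insert]
        congr 1
        refine image_congr ?_
        intro v hv
        simp only [coe_filter, Set.mem_ofPred_eq] at hv
        have h2 := hz' (Sum.inl v) (mem_insert_of_mem (by
          rw [inl_mem_NN]
          simp only [Nbr, mem_filter, mem_univ, true_and]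
          exact ⟨hv.2, e, he, hv.1, hae⟩))
        rw [Function.update_of_ne (by simp)] at h2
        exact h2.symm
      have e2 : ((univ.filter fun j : Fin r => (c a : ℕ) ≤ (j : ℕ)).image
            fun j => z (Sum.inr j)) =
          insert (x (Sum.inl a)) ((univ.filter fun j : Fin r => i ≤ (j : ℕ)).image
            fun j => x (Sum.inr j)) := by
        have : (univ.filter fun j : Fin r => (c a : ℕ) ≤ (j : ℕ)) =
            insert (c a) (univ.filter fun j : Fin r => i ≤ (j : ℕ)) := by
          ext j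
          simp only [mem_filter, mem_univ, true_and, mem_insert]
          constructor
          · intro h2
            by_cases h3 : i ≤ (j : ℕ)
            · exact Or.inr h3
            · exact Or.inl (Fin.ext (by omega))
          · rintro (h2 | h2)
            · subst h2; exact le_rfl
            · omega
        rw [this, image_insert]
        have h2 := hz' (Sum.inr (c a)) (mem_insert_self _ _)
        rw [Function.update_self] at h2
        rw [h2]
        congr 1
        refine image_congr ?_
        intro j hj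
        simp only [coe_filter, mem_univ, true_and, Set.mem_ofPred_eq] at hj
        have h3 := hz' (Sum.inr j) (mem_insert_of_mem (by
          rw [inr_mem_NN]
          show (c a : ℕ) < (j : ℕ)
          omega))
        rw [Function.update_of_ne (by
          intro h; have := Sum.inr_injective h; subst this; omega)] at h3
        exact h3
      rw [e2] at hprev
      rw [e1]
      convert hprev using 1
      ext t
      simp only [mem_union, mem_insert]
      tauto
    · have hold := hsupp _ hv e he i hi (by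
        intro u hu hui
        rcases mem_insert.1 (hA u hu hui) with h | h
        · subst h; exact absurd ⟨hu, hui⟩ hmem
        · exact h)
      convert hold using 2
      · refine image_congr ?_
        intro u hu
        simp only [coe_filter, Set.mem_ofPred_eq] at hu
        have : u ≠ a := by rintro rfl; exact hmem hu
        simp [this]
      · refine image_congr ?_
        intro j _
        simp
  · have hcost : ∀ u ∈ insert a A,
        cost F c (resamp f (Sum.inr (c a)) (Sum.inl a) (NN F c a)) u = cost F c f u := by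
      intro u hu
      have hua : c u ≤ c a := by
        rcases mem_insert.1 hu with h | h
        · rw [h]
        · exact hmax u h
      have h2 : (Sum.inl a : W ⊕ Fin r) ∉ NN F c u := by
        rw [inl_mem_NN]; exact not_mem_Nbr hua
      unfold cost
      rw [D_resamp h0 hyw hy hw h2, D_resamp h0 hyw hy hw (by simp [h2])]
    intro S hS hScl
    rw [sum_congr rfl fun u hu => hcost u (hS hu)]
    by_cases haS : a ∈ S
    · have hcl' : ∀ u ∈ S.erase a, Nbr F c u ⊆ S.erase a := by
        intro u hu v hv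
        have hu' := mem_erase.1 hu
        refine mem_erase.2 ⟨?_, hScl u hu'.2 hv⟩
        rintro rfl
        have : c u ≤ c v := by
          rcases mem_insert.1 (hS hu'.2) with h | h
          · exact absurd h hu'.1
          · exact hmax u h
        exact not_mem_Nbr this hv
      have hsub : S.erase a ⊆ A := by
        intro u hu
        have hu' := mem_erase.1 hu
        exact (mem_insert.1 (hS hu'.2)).resolve_left hu'.1
      have hIH := hD (S.erase a) hsub hcl'
      have e1 : YY r W ∪ S.image Sum.inl =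
          insert (Sum.inl a) (YY r W ∪ (S.erase a).image Sum.inl) := by
        conv_lhs => rw [← insert_erase haS]
        rw [image_insert, union_insert]
      have hnot : (Sum.inl a : W ⊕ Fin r) ∉ YY r W ∪ (S.erase a).image Sum.inl := by
        simp [YY]
      have hNN : NN F c a ⊆ YY r W ∪ (S.erase a).image Sum.inl := by
        intro t ht
        rcases t with u | j
        · rw [inl_mem_NN] at ht
          refine mem_union_right _ (mem_image_of_mem _ (mem_erase.2 ⟨?_, hScl a haS ht⟩))
          rintro rfl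
          exact not_mem_Nbr le_rfl ht
        · exact mem_union_left _ (inr_mem_YY j)
      rw [e1, D_resamp_insert h0 hyw hy hw hnot hNN, ← add_sum_erase S _ haS]
      unfold cost at hIH ⊢
      linarith
    · have hsub : S ⊆ A := fun u hu =>
        (mem_insert.1 (hS hu)).resolve_left (by rintro rfl; exact haS hu)
      have hnot : (Sum.inl a : W ⊕ Fin r) ∉ YY r W ∪ S.image Sum.inl := by
        simp [YY, haS]
      rw [D_resamp h0 hyw hy hw hnot]
      exact hD S hsub hScl

theorem full (F : RGraph r W) (H : RGraph r V) (c : W → Fin r)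
    (hc : ∀ e ∈ F.edges, ∀ j : Fin r, ∃! v, v ∈ e ∧ c v = j)
    (ht : 0 < (RGraph.single r).density H) :
    ∃ f, State F H c (- Real.log ((RGraph.single r).density H)) univ f := by
  have key : ∀ A : Finset W, (∀ u v, v ∈ A → c u < c v → u ∈ A) →
      ∃ f, State F H c (- Real.log ((RGraph.single r).density H)) A f := by
    intro A
    induction A using Finset.induction_on_max_value c with
    | empty => intro _; exact base F H c hc ht
    | insert a s ha hmax ih =>
      intro hcl
      have hcl' : ∀ u v, v ∈ s → c u < c v → u ∈ s := by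
        intro u v hv huv
        refine (mem_insert.1 (hcl u v (mem_insert_of_mem hv) huv)).resolve_left ?_
        rintro rfl
        exact absurd (hmax v hv) (not_le.2 huv)
      obtain ⟨f, hf⟩ := ih hcl'
      refine ⟨_, step F H c _ hc a s ha hmax ?_ f hf⟩
      intro u hu
      refine (mem_insert.1 (hcl u a (mem_insert_self _ _) hu)).resolve_left ?_
      rintro rfl
      exact lt_irrefl _ hu
  exact key univ fun u _ _ _ => mem_univ u

/-- The set of vertices reachable by going down in the part order, with fuel. -/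
def Dn (F : RGraph r W) (c : W → Fin r) : ℕ → W → Finset W
  | 0, w => {w}
  | k + 1, w => insert w ((Nbr F c w).biUnion (Dn F c k))

theorem Dn_self (F : RGraph r W) (c : W → Fin r) (k : ℕ) (w : W) : w ∈ Dn F c k w := by
  cases k <;> simp [Dn]

theorem Nbr_lt {F : RGraph r W} {c : W → Fin r} {u w : W} (h : u ∈ Nbr F c w) : c u < c w := by
  simp only [Nbr, mem_filter, mem_univ, true_and] at h
  exact h.1

theorem Dn_closed (F : RGraph r W) (c : W → Fin r) (k : ℕ) (w : W) (hk : (c w : ℕ) ≤ k) :
    ∀ u ∈ Dn F c k w, Nbr F c u ⊆ Dn F c k w := by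
  induction k generalizing w with
  | zero =>
    intro u hu v hv
    simp only [Dn, mem_singleton] at hu
    subst hu
    have : (c v : ℕ) < c u := Nbr_lt hv
    omega
  | succ k ih =>
    intro u hu v hv
    simp only [Dn, mem_insert, mem_biUnion] at hu ⊢
    rcases hu with hu | ⟨t, ht, hut⟩
    · subst hu
      exact Or.inr ⟨v, hv, Dn_self F c k v⟩
    · have h1 : (c t : ℕ) < c w := Nbr_lt ht
      exact Or.inr ⟨t, ht, ih t (by omega) u hut hv⟩

theorem cost_nonneg (F : RGraph r W) (c : W → Fin r) {f : (W ⊕ Fin r → V) → ℝ}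
    (h0 : ∀ x, 0 ≤ f x) (u : W) : 0 ≤ cost F c f u := by
  unfold cost
  have := D_mono h0 (subset_insert (Sum.inr (c u)) (NN F c u))
  linarith

theorem cost_le (F : RGraph r W) (H : RGraph r V) (c : W → Fin r) (L : ℝ)
    (f : (W ⊕ Fin r → V) → ℝ) (hf : State F H c L univ f) (w : W) (S : Finset W)
    (hS : ∀ u ∈ S, Nbr F c u ⊆ S) (hw : Nbr F c w ⊆ S) :
    cost F c f w ≤ L + ∑ u ∈ S, cost F c f u := by
  obtain ⟨h0, h1, -, hD⟩ := hf
  have h2 : D f (insert (Sum.inr (c w)) (NN F c w)) ≤ D f (YY r W ∪ S.image Sum.inl) := by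
    refine D_mono h0 ?_
    intro t ht
    rcases mem_insert.1 ht with rfl | ht
    · exact mem_union_left _ (inr_mem_YY _)
    · rcases t with u | j
      · rw [inl_mem_NN] at ht
        exact mem_union_right _ (mem_image_of_mem _ (hw ht))
      · exact mem_union_left _ (inr_mem_YY j)
  have h3 : 0 ≤ D f (NN F c w) := D_nonneg h0 h1 _
  have h4 := hD S (subset_univ S) hS
  unfold cost at h4 ⊢
  linarith

theorem sum_biUnion_le {ι κ : Type} [DecidableEq ι] [DecidableEq κ] (s : Finset κ)
    (t : κ → Finset ι) (g : ι → ℝ) (hg : ∀ i, 0 ≤ g i) :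
    ∑ i ∈ s.biUnion t, g i ≤ ∑ k ∈ s, ∑ i ∈ t k, g i := by
  induction s using Finset.induction_on with
  | empty => simp
  | insert a s ha ih =>
    rw [biUnion_insert, sum_insert ha]
    have h1 := sum_union_inter (s₁ := t a) (s₂ := s.biUnion t) (f := g)
    have h2 : 0 ≤ ∑ i ∈ t a ∩ s.biUnion t, g i := sum_nonneg fun i _ => hg i
    linarith

theorem sum_Dn_le (F : RGraph r W) (H : RGraph r V) (c : W → Fin r) (L : ℝ) (hL : 0 ≤ L)
    (f : (W ⊕ Fin r → V) → ℝ) (hf : State F H c L univ f) (m : ℕ)
    (hm : ∀ w, (Nbr F c w).card ≤ m) (k : ℕ) (w : W) (hk : (c w : ℕ) ≤ k) :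
    ∑ u ∈ Dn F c k w, cost F c f u ≤ (1 + 2 * (m : ℝ)) ^ k * L := by
  induction k generalizing w with
  | zero =>
    simp only [Dn, sum_singleton, pow_zero, one_mul]
    have h1 : Nbr F c w ⊆ (∅ : Finset W) := by
      intro v hv
      have : (c v : ℕ) < c w := Nbr_lt hv
      omega
    simpa using cost_le F H c L f hf w ∅ (by simp) h1
  | succ k ih =>
    have hcn : ∀ u, 0 ≤ cost F c f u := cost_nonneg F c hf.1
    set S := (Nbr F c w).biUnion (Dn F c k) with hSdef
    have hScl : ∀ u ∈ S, Nbr F c u ⊆ S := by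
      intro u hu v hv
      rw [hSdef, mem_biUnion] at hu ⊢
      obtain ⟨t, ht, hut⟩ := hu
      have h1 : (c t : ℕ) < c w := Nbr_lt ht
      exact ⟨t, ht, Dn_closed F c k t (by omega) u hut hv⟩
    have hsub : Nbr F c w ⊆ S := by
      intro v hv
      rw [hSdef, mem_biUnion]
      exact ⟨v, hv, Dn_self F c k v⟩
    have h1 := cost_le F H c L f hf w S hScl hsub
    have h2 : ∑ u ∈ S, cost F c f u ≤ ∑ v ∈ Nbr F c w, ∑ u ∈ Dn F c k v, cost F c f u :=
      sum_biUnion_le _ _ _ hcn
    have h3 : ∑ v ∈ Nbr F c w, ∑ u ∈ Dn F c k v, cost F c f u ≤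
        (m : ℝ) * ((1 + 2 * (m : ℝ)) ^ k * L) := by
      have h4 : ∑ v ∈ Nbr F c w, ∑ u ∈ Dn F c k v, cost F c f u ≤
          ∑ v ∈ Nbr F c w, ((1 + 2 * (m : ℝ)) ^ k * L) := by
        refine sum_le_sum fun v hv => ih v ?_
        have h1 : (c v : ℕ) < c w := Nbr_lt hv
        omega
      refine h4.trans ?_
      rw [sum_const, nsmul_eq_mul]
      have h5 : ((Nbr F c w).card : ℝ) ≤ m := by exact_mod_cast hm w
      exact mul_le_mul_of_nonneg_right h5 (by positivity)
    have h6 : ∑ u ∈ Dn F c (k + 1) w, cost F c f u ≤ cost F c f w + ∑ u ∈ S, cost F c f u := by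
      show ∑ u ∈ insert w S, cost F c f u ≤ _
      by_cases hwS : w ∈ S
      · rw [insert_eq_of_mem hwS]
        have := hcn w
        linarith
      · rw [sum_insert hwS]
    have h7 : L ≤ (1 + 2 * (m : ℝ)) ^ k * L := by
      have : (1 : ℝ) ≤ (1 + 2 * (m : ℝ)) ^ k := one_le_pow₀ (by
        have : (0 : ℝ) ≤ m := by positivity
        linarith)
      nlinarith
    have h8 : (1 + 2 * (m : ℝ)) ^ (k + 1) * L =
        (1 + 2 * (m : ℝ)) ^ k * L + 2 * ((m : ℝ) * ((1 + 2 * (m : ℝ)) ^ k * L)) := by
      rw [pow_succ]; ring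
    rw [h8]
    linarith

theorem Nbr_card_le (F : RGraph r W) (c : W → Fin r) (w : W) :
    (Nbr F c w).card ≤ F.degree w * (r - 1) := by
  have h1 : Nbr F c w ⊆ (F.edges.filter fun e => w ∈ e).biUnion fun e => e.erase w := by
    intro u hu
    have hlt := Nbr_lt hu
    simp only [Nbr, mem_filter, mem_univ, true_and] at hu
    obtain ⟨-, e, he, hue, hwe⟩ := hu
    rw [mem_biUnion]
    exact ⟨e, mem_filter.2 ⟨he, hwe⟩, mem_erase.2 ⟨by rintro rfl; exact lt_irrefl _ hlt, hue⟩⟩
  refine (card_le_card h1).trans ?_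
  refine card_biUnion_le_card_mul _ _ _ ?_
  intro e he
  have he' := mem_filter.1 he
  rw [card_erase_of_mem he'.2, F.uniform e he'.1]

open Classical in
/-- The main inequality: `log (1/t_F(H)) ≤ (1 + v' C) log (1/t_K(H))` with `v'` the number of
non-isolated vertices. -/
theorem log_density_le (F : RGraph r W) (H : RGraph r V) (hF : F.IsPartite) (Δ : ℕ)
    (hΔ : ∀ v, F.degree v ≤ Δ) (hr : 1 ≤ r)
    (ht : 0 < (RGraph.single r).density H) (hL : (RGraph.single r).density H ≤ 1) :
    - Real.log (F.density H) ≤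
      (1 + (r * F.edges.card : ℝ) * (1 + 2 * ((Δ * (r - 1) : ℕ) : ℝ)) ^ (r - 1)) *
        (- Real.log ((RGraph.single r).density H)) := by
  obtain ⟨c, hc⟩ := hF
  set L := - Real.log ((RGraph.single r).density H) with hLdef
  have hL0 : 0 ≤ L := by
    rw [hLdef]
    have := Real.log_nonpos ht.le hL
    linarith
  obtain ⟨f, hf⟩ := full F H c hc ht
  set m := Δ * (r - 1) with hm
  set C := (1 + 2 * (m : ℝ)) ^ (r - 1) with hC
  have hmC : ∀ w, (Nbr F c w).card ≤ m := fun w =>
    (Nbr_card_le F c w).trans (Nat.mul_le_mul_right _ (hΔ w))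
  have hcn : ∀ u, 0 ≤ cost F c f u := cost_nonneg F c hf.1
  have hcost : ∀ w, cost F c f w ≤ C * L := by
    intro w
    have h1 := sum_Dn_le F H c L hL0 f hf m hmC (r - 1) w (by have := (c w).isLt; omega)
    exact (single_le_sum (fun u _ => hcn u) (Dn_self F c (r - 1) w)).trans h1
  set S := F.edges.biUnion id with hS
  have hScl : ∀ u ∈ S, Nbr F c u ⊆ S := by
    intro u _ v hv
    simp only [Nbr, mem_filter, mem_univ, true_and] at hv
    obtain ⟨-, e, he, hve, -⟩ := hv
    rw [hS, mem_biUnion]
    exact ⟨e, he, hve⟩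
  have hScard : (S.card : ℝ) ≤ r * F.edges.card := by
    have : S.card ≤ F.edges.card * r := card_biUnion_le_card_mul _ _ _ fun e he =>
      (F.uniform e he).le
    have h2 : (S.card : ℝ) ≤ ((F.edges.card * r : ℕ) : ℝ) := by exact_mod_cast this
    push_cast at h2
    linarith
  have h1 : D f (S.image Sum.inl) ≤ L + ∑ u ∈ S, cost F c f u :=
    (D_mono hf.1 subset_union_right).trans (hf.2.2.2 S (subset_univ S) hScl)
  have h2 : ∑ u ∈ S, cost F c f u ≤ (S.card : ℝ) * (C * L) := by
    rw [← nsmul_eq_mul]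
    exact sum_le_card_nsmul _ _ _ fun u _ => hcost u
  have hP : ∀ x : W ⊕ Fin r → V, marg f (S.image Sum.inl) x ≠ 0 →
      F.IsHom H (x ∘ Sum.inl) := by
    intro x hx e he
    obtain ⟨z, hz, hz'⟩ := exists_of_marg_ne hx
    have h3 := hf.2.2.1 z hz e he r le_rfl (fun v _ _ => mem_univ v)
    have e1 : (e.filter fun v => (c v : ℕ) < r) = e := by
      rw [filter_eq_self]; intro v _; exact (c v).isLt
    have e2 : (univ.filter fun j : Fin r => r ≤ (j : ℕ)) = ∅ := by
      rw [filter_eq_empty_iff]; intro j _; have := j.isLt; omega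
    rw [e1, e2, image_empty, union_empty] at h3
    have e3 : e.image (x ∘ Sum.inl) = e.image fun v => z (Sum.inl v) := by
      refine image_congr ?_
      intro v hv
      exact (hz' (Sum.inl v) (mem_image_of_mem _ (by
        rw [hS, mem_biUnion]; exact ⟨e, he, hv⟩))).symm
    rw [e3]; exact h3
  have h3 := (D_ge hf.1 hf.2.1 (S.image Sum.inl)
    (fun x : W ⊕ Fin r → V => F.IsHom H (x ∘ Sum.inl)) hP).2
  have h4 : Ex (fun x : W ⊕ Fin r → V => if F.IsHom H (x ∘ Sum.inl) then (1 : ℝ) else 0) =
      F.density H := by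
    rw [density_eq]
    exact Ex_inl (R := Fin r) (fun φ : W → V => if F.IsHom H φ then (1 : ℝ) else 0)
  rw [h4] at h3
  have hC0 : 0 ≤ C * L := mul_nonneg (by positivity) hL0
  have h5 : (S.card : ℝ) * (C * L) ≤ (r * F.edges.card : ℝ) * (C * L) :=
    mul_le_mul_of_nonneg_right hScard hC0
  have h6 : (1 + (r * F.edges.card : ℝ) * C) * L = L + (r * F.edges.card : ℝ) * (C * L) := by ring
  rw [h6]
  linarith

/-- For `r ≥ 2` the density of a single edge is less than one. -/
theorem single_density_lt_one (hr : 2 ≤ r) (H : RGraph r V) :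
    (RGraph.single r).density H < 1 := by
  unfold RGraph.density
  have hpos : (0 : ℝ) < (Fintype.card V : ℝ) ^ Fintype.card (Fin r) := by
    have : 0 < Fintype.card V := Fintype.card_pos
    positivity
  rw [div_lt_one hpos]
  have h1 : Nat.card {φ : Fin r → V // (RGraph.single r).IsHom H φ} <
      Fintype.card (Fin r → V) := by
    classical
    rw [Nat.card_eq_fintype_card]
    obtain ⟨v⟩ := ‹Nonempty V›
    refine Fintype.card_subtype_lt (x := fun _ => v) ?_
    intro h
    have h2 := h univ (by simp [RGraph.single])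
    have h3 := H.uniform _ h2
    have h4 : (univ.image fun _ : Fin r => v) ⊆ {v} := by
      intro t ht; simp at ht; simp [ht.2.symm]
    have h5 := card_le_card h4
    simp at h5
    omega
  rw [Fintype.card_fun] at h1
  exact_mod_cast h1

end Pool.Agent.Q231.Sid
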